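import Pool.Agent.K3h46.HP.Stm5

/-!
# Powers of the transpose of a correspondence
-/

set_option autoImplicit false

open Finset Pool.Agent.K3h46.HP

namespace Pool.Agent.K3h25.HP

/-- the exchange of the two blocks -/
def g (N : ℕ) : Fin (N + N) → Fin (N + N) :=
  Fin.addCases (motive := fun _ => Fin (N + N)) (fun i => Fin.natAdd N i)
    (fun i => Fin.castAdd N i)

theorem g_left (N : ℕ) (i : Fin N) : g N (Fin.castAdd N i) = Fin.natAdd N i := by
  unfold g
  rw [Fin.addCases_left]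

theorem g_right (N : ℕ) (i : Fin N) : g N (Fin.natAdd N i) = Fin.castAdd N i := by
  unfold g
  rw [Fin.addCases_right]

theorem edge_swap (X : Powers) (a : X.A 2) {n : ℕ} (u v : Fin n) :
    X.edge a u v = X.edge (X.pull ![1, 0] a) v u := by
  unfold Powers.edge
  rw [X.pull_comp]
  congr 1
  congr 1
  funext k
  fin_cases k <;> rfl

theorem pull_prod (X : Powers) (a : X.A 2) (N : ℕ) (σ : Equiv.Perm (Fin N)) :
    X.pull (g N) (∏ i : Fin N, X.edge a (Fin.castAdd N i) (Fin.natAdd N (σ i))) =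
      ∏ i : Fin N, X.edge (X.pull ![1, 0] a) (Fin.castAdd N i) (Fin.natAdd N (σ⁻¹ i)) := by
  rw [map_prod]
  have h : ∀ i : Fin N, X.pull (g N) (X.edge a (Fin.castAdd N i) (Fin.natAdd N (σ i))) =
      X.edge (X.pull ![1, 0] a) (Fin.castAdd N (σ i)) (Fin.natAdd N (σ⁻¹ (σ i))) := by
    intro i
    have e : σ⁻¹ (σ i) = i := Equiv.symm_apply_apply σ i
    rw [pull_edge, g_left, g_right, edge_swap, e]
  rw [Finset.prod_congr rfl fun i _ => h i]
  exact Equiv.prod_comp σ fun j => X.edge (X.pull ![1, 0] a) (Fin.castAdd N j)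
    (Fin.natAdd N (σ⁻¹ j))

theorem pull_sym (X : Powers) (a : X.A 2) (N : ℕ) :
    X.pull (g N) (X.symPower a N) = X.symPower (X.pull ![1, 0] a) N := by
  unfold Powers.symPower
  rw [map_sum, Finset.sum_congr rfl fun σ _ => pull_prod X a N σ]
  exact Equiv.sum_comp (Equiv.inv (Equiv.Perm (Fin N))) fun σ : Equiv.Perm (Fin N) =>
    ∏ i : Fin N, X.edge (X.pull ![1, 0] a) (Fin.castAdd N i) (Fin.natAdd N (σ i))

theorem pull_alt (X : Powers) (a : X.A 2) (N : ℕ) :
    X.pull (g N) (X.altPower a N) = X.altPower (X.pull ![1, 0] a) N := by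
  unfold Powers.altPower
  rw [map_sum]
  have h : ∀ σ : Equiv.Perm (Fin N), X.pull (g N) (((Equiv.Perm.sign σ : ℤ) : ℚ) •
      ∏ i : Fin N, X.edge a (Fin.castAdd N i) (Fin.natAdd N (σ i))) =
      ((Equiv.Perm.sign σ⁻¹ : ℤ) : ℚ) • ∏ i : Fin N,
        X.edge (X.pull ![1, 0] a) (Fin.castAdd N i) (Fin.natAdd N (σ⁻¹ i)) := by
    intro σ
    rw [map_smul, pull_prod, Equiv.Perm.sign_inv]
  rw [Finset.sum_congr rfl fun σ _ => h σ]
  exact Equiv.sum_comp (Equiv.inv (Equiv.Perm (Fin N))) fun σ : Equiv.Perm (Fin N) =>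
    ((Equiv.Perm.sign σ : ℤ) : ℚ) • ∏ i : Fin N,
      X.edge (X.pull ![1, 0] a) (Fin.castAdd N i) (Fin.natAdd N (σ i))

theorem t_Trp : StmTrp := by
  intro X a N
  constructor
  · intro h
    rw [← pull_alt, h, map_zero]
  · intro h
    rw [← pull_sym, h, map_zero]

end Pool.Agent.K3h25.HP
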